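import Pool.Agent.Y914.CJ.Disc
import Pool.Agent.W249.AX.KLog
import Pool.Agent.W67.AX.UX2
import Pool.Agent.W303.AX.UX1

/-!
# Continuation of expansions of functions without zeros to a larger disc (helper914)
-/

set_option autoImplicit false

namespace Pool.Agent.Y914.CJ

open Finset Filter Topology Metric
open Pool.Agent.W719.AX
open Pool.Agent.W67.AX (congr' uxadd uxcmul uxconst uxsub uxcomp logT uxexp)
open Pool.Agent.W303.AX (uxbd uxmul uxan)
open Pool.Agent.W249.AX (ex_log bc_step)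

theorem ux_mono {E : Type} {Y : ℕ → E → ℂ} {A : ℕ → E → ℂ} {S T : Set E} (h : UX Y A S)
    (hT : T ⊆ S) : UX Y A T := by
  intro K
  obtain ⟨C, hC⟩ := h K
  exact ⟨C, hC.mono fun N hN p hp => hN p (hT hp)⟩

/-- an expansion with holomorphic coefficients, the first one without zeros -/
structure GD (Y : ℕ → ℂ → ℂ) (A : ℕ → ℂ → ℂ) (S : Set ℂ) : Prop where
  ux : UX Y A S
  an : ∀ k, DifferentiableOn ℂ (A k) S
  nz : ∀ z ∈ S, A 0 z ≠ 0

theorem GD.mono {Y : ℕ → ℂ → ℂ} {A : ℕ → ℂ → ℂ} {S T : Set ℂ} (h : GD Y A S) (hT : T ⊆ S) :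
    GD Y A T :=
  ⟨ux_mono h.ux hT, fun k => (h.an k).mono hT, fun z hz => h.nz z (hT hz)⟩

theorem exp_one_const {S : Set ℂ} (hS : IsOpen S) (hc : IsPreconnected S) {f : ℂ → ℂ}
    (hf : DifferentiableOn ℂ f S) (he : ∀ z ∈ S, Complex.exp (f z) = 1) {p : ℂ} (hp : p ∈ S)
    (h0 : f p = 0) {z : ℂ} (hz : z ∈ S) : f z = 0 := by
  rw [← h0]
  refine hS.is_const_of_deriv_eq_zero hc hf ?_ hz hp
  intro x hx
  have h1 : HasDerivAt f (deriv f x) x := ((hf x hx).differentiableAt (hS.mem_nhds hx)).hasDerivAt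
  have h2 : HasDerivAt (fun y => Complex.exp (f y)) (Complex.exp (f x) * deriv f x) x := h1.cexp
  have h3 : HasDerivAt (fun y => Complex.exp (f y)) 0 x := by
    refine (hasDerivAt_const x (1 : ℂ)).congr_of_eventuallyEq ?_
    filter_upwards [hS.mem_nhds hx] with y hy
    exact he y hy
  have h4 := h2.unique h3
  rw [he x hx, one_mul] at h4
  exact h4

theorem dbl {Y : ℕ → ℂ → ℂ} {A : ℕ → ℂ → ℂ} {p : ℂ} {r : ℝ} (hr : 0 < r)
    (hY : ∀ᶠ N : ℕ in atTop, DifferentiableOn ℂ (Y N) (ball p (18 * r)) ∧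
      ∀ z ∈ ball p (18 * r), Y N z ≠ 0 ∧ |Real.log ‖Y N z‖| ≤ N)
    (hA : GD Y A (ball p r)) : ∃ A' : ℕ → ℂ → ℂ, GD Y A' (ball p (5 / 4 * r)) := by
  obtain ⟨s, hs⟩ : ∃ s, s = 9 / 10 * r := ⟨_, rfl⟩
  have hs0 : 0 < s := by rw [hs]; positivity
  have hpr : p ∈ ball p r := mem_ball_self hr
  have hps : p ∈ ball p s := mem_ball_self hs0
  have hp18 : p ∈ ball p (18 * r) := mem_ball_self (by positivity)
  have hsr : closedBall p s ⊆ ball p r := closedBall_subset_ball (by rw [hs]; linarith)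
  have hbs : ball p s ⊆ ball p r := ball_subset_closedBall.trans hsr
  -- bounds
  have hcont : ContinuousOn (A 0) (closedBall p s) := ((hA.an 0).mono hsr).continuousOn
  obtain ⟨c, hc, hcA⟩ : ∃ c : ℝ, 0 < c ∧ ∀ z ∈ closedBall p s, c ≤ ‖A 0 z‖ := by
    obtain ⟨x, hx, hx2⟩ := (isCompact_closedBall p s).exists_isMinOn
      ⟨p, mem_closedBall_self hs0.le⟩ hcont.norm
    exact ⟨‖A 0 x‖, norm_pos_iff.2 (hA.nz x (hsr hx)), fun z hz => hx2 hz⟩
  obtain ⟨MA, hMA⟩ := (isCompact_closedBall p s).exists_bound_of_continuousOn hcont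
  obtain ⟨l, hld, hle, hlp⟩ := ex_log isOpen_ball (convex_ball p r) (hA.an 0) hA.nz hpr
    (Complex.exp_log (hA.nz p hpr))
  obtain ⟨Ml, hMl⟩ := (isCompact_closedBall p s).exists_bound_of_continuousOn
    ((hld.mono hsr).continuousOn)
  -- logarithms
  have hex : ∀ N : ℕ, ∃ L : ℂ → ℂ, (DifferentiableOn ℂ (Y N) (ball p (18 * r)) ∧
      ∀ z ∈ ball p (18 * r), Y N z ≠ 0 ∧ |Real.log ‖Y N z‖| ≤ N) →
      DifferentiableOn ℂ L (ball p (18 * r)) ∧
      (∀ z ∈ ball p (18 * r), Complex.exp (L z) = Y N z) ∧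
      L p = l p + Complex.log (Y N p / A 0 p) := by
    intro N
    by_cases h : (DifferentiableOn ℂ (Y N) (ball p (18 * r)) ∧
      ∀ z ∈ ball p (18 * r), Y N z ≠ 0 ∧ |Real.log ‖Y N z‖| ≤ N)
    · have h1 : Complex.exp (l p + Complex.log (Y N p / A 0 p)) = Y N p := by
        rw [Complex.exp_add, hle p hpr,
          Complex.exp_log (div_ne_zero (h.2 p hp18).1 (hA.nz p hpr)),
          mul_div_cancel₀ _ (hA.nz p hpr)]
      obtain ⟨L, h2, h3, h4⟩ := ex_log isOpen_ball (convex_ball p (18 * r)) h.1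
        (fun z hz => (h.2 z hz).1) hp18 h1
      exact ⟨L, fun _ => ⟨h2, h3, h4⟩⟩
    · exact ⟨0, fun h' => absurd h' h⟩
  choose L hL using hex
  -- bounds of the logarithms
  obtain ⟨C₀, hC₀⟩ : ∃ C₀ : ℝ, C₀ = 7 + ‖l p‖ + |Real.log ‖A 0 p‖| + Real.pi := ⟨_, rfl⟩
  have hLb : ∀ᶠ N : ℕ in atTop, DifferentiableOn ℂ (L N) (ball p (10 * s)) ∧
      ∀ z ∈ ball p (10 * s), ‖L N z‖ ≤ C₀ * N := by
    filter_upwards [hY, eventually_ge_atTop 1] with N hN hN1
    obtain ⟨h1, h2, h3⟩ := hL N hN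
    have hN1' : (1 : ℝ) ≤ N := by exact_mod_cast hN1
    have hsub : ball p (10 * s) ⊆ ball p (18 * r) := ball_subset_ball (by rw [hs]; linarith)
    refine ⟨h1.mono hsub, fun z hz => ?_⟩
    have hre : ∀ x ∈ ball p (18 * r), |(L N x).re| ≤ N := by
      intro x hx
      have h4 := (hN.2 x hx).2
      rwa [← h2 x hx, Complex.norm_exp, Real.log_exp] at h4
    have h5 : ‖L N (p + (z - p)) - L N p‖ ≤ 6 * N := by
      refine bc_step h1 (by linarith) (show (0 : ℝ) < 9 * r by positivity) hre ?_ ?_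
      · rw [show 2 * (9 * r) = 18 * r by ring]
      · rw [mem_ball, dist_eq_norm] at hz
        have : 10 * s = 9 * r := by rw [hs]; ring
        linarith
    rw [add_sub_cancel] at h5
    have h6 : ‖Complex.log (Y N p / A 0 p)‖ ≤ N + |Real.log ‖A 0 p‖| + Real.pi := by
      have h7 : |(Complex.log (Y N p / A 0 p)).re| ≤ N + |Real.log ‖A 0 p‖| := by
        rw [Complex.log_re, norm_div, Real.log_div
          (norm_ne_zero_iff.2 (hN.2 p hp18).1) (norm_ne_zero_iff.2 (hA.nz p hpr))]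
        refine (abs_sub _ _).trans ?_
        have := (hN.2 p hp18).2
        linarith
      have h8 : |(Complex.log (Y N p / A 0 p)).im| ≤ Real.pi := by
        rw [Complex.log_im]
        exact Complex.abs_arg_le_pi _
      exact (Complex.norm_le_abs_re_add_abs_im _).trans (add_le_add h7 h8)
    have h9 : ‖L N p‖ ≤ ‖l p‖ + (N + |Real.log ‖A 0 p‖| + Real.pi) := by
      rw [h3]
      exact (norm_add_le _ _).trans (by linarith)
    have h10 : ‖L N z‖ ≤ ‖L N z - L N p‖ + ‖L N p‖ := by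
      have := norm_add_le (L N z - L N p) (L N p)
      rwa [sub_add_cancel] at this
    have h11 : ‖l p‖ ≤ ‖l p‖ * N := le_mul_of_one_le_right (norm_nonneg _) hN1'
    have h12 : |Real.log ‖A 0 p‖| ≤ |Real.log ‖A 0 p‖| * N :=
      le_mul_of_one_le_right (abs_nonneg _) hN1'
    have h13 : Real.pi ≤ Real.pi * N := le_mul_of_one_le_right Real.pi_pos.le hN1'
    have h14 : C₀ * N = 7 * N + ‖l p‖ * N + |Real.log ‖A 0 p‖| * N + Real.pi * N := by
      rw [hC₀]; ring
    rw [h14]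
    linarith
  -- the expansion of the logarithms near `p`
  have hR0 := uxsub MA (fun z hz => hMA z (ball_subset_closedBall hz)) (ux_mono hA.ux hbs)
  have hR := uxcmul (fun z => (A 0 z)⁻¹) c⁻¹ (by
    intro z hz
    rw [norm_inv]
    exact inv_anti₀ hc (hcA z (ball_subset_closedBall hz))) hR0
  have h1 := uxcomp uxmul hR (fun p => by simp) (fun x => Complex.log (1 + x))
    (fun j => (-1) ^ (j + 1) / (j : ℂ)) logT
  have h2 := uxconst (S := ball p s) l Ml (fun z hz => hMl z (ball_subset_closedBall hz))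
  have hUL : ∀ᶠ N : ℕ in atTop, ∀ z ∈ ball p s,
      l z + Complex.log (1 + (A 0 z)⁻¹ * (Y N z - A 0 z)) = L N z := by
    obtain ⟨C, hC⟩ := hR 1
    have hsmall : ∀ᶠ N : ℕ in atTop, C / (N : ℝ) < 1 :=
      (tendsto_const_div_atTop_nhds_zero_nat C).eventually (gt_mem_nhds (by norm_num))
    filter_upwards [hY, hC, hsmall] with N hN h3 h4
    obtain ⟨h5, h6, h7⟩ := hL N hN
    have hs18 : ball p s ⊆ ball p (18 * r) := ball_subset_ball (by rw [hs]; linarith)
    have hx : ∀ z ∈ ball p s, ‖(A 0 z)⁻¹ * (Y N z - A 0 z)‖ < 1 := by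
      intro z hz
      have h8 := h3 z hz
      rw [Finset.sum_range_one] at h8
      simp only [if_true, mul_zero, pow_zero, zero_div, sub_zero, pow_one] at h8
      exact h8.trans_lt h4
    have hsp : ∀ z ∈ ball p s, 1 + (A 0 z)⁻¹ * (Y N z - A 0 z) ∈ Complex.slitPlane := by
      intro z hz
      exact Complex.mem_slitPlane_of_norm_lt_one (hx z hz)
    have hq : ∀ z ∈ ball p s, 1 + (A 0 z)⁻¹ * (Y N z - A 0 z) = Y N z / A 0 z := by
      intro z hz
      have := hA.nz z (hbs hz)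
      field_simp
      ring
    have hd : DifferentiableOn ℂ
        (fun z => L N z - (l z + Complex.log (1 + (A 0 z)⁻¹ * (Y N z - A 0 z)))) (ball p s) := by
      refine (h5.mono hs18).sub ((hld.mono hbs).add ?_)
      refine DifferentiableOn.clog ?_ hsp
      refine (differentiableOn_const _).add (DifferentiableOn.mul ?_ ?_)
      · exact ((hA.an 0).mono hbs).inv fun z hz => hA.nz z (hbs hz)
      · exact (hN.1.mono hs18).sub ((hA.an 0).mono hbs)
    intro z hz
    have := exp_one_const isOpen_ball (convex_ball p s).isPreconnected hd ?_ hps ?_ hz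
    · exact (sub_eq_zero.1 this).symm
    · intro z hz
      have hz0 := hA.nz z (hbs hz)
      have hz1 := (hN.2 z (hs18 hz)).1
      rw [Complex.exp_sub, Complex.exp_add, hq z hz, Complex.exp_log (div_ne_zero hz1 hz0),
        hle z (hbs hz), h6 z (hs18 hz), mul_div_cancel₀ _ hz0, div_self hz1]
    · rw [h7, hq p hps, sub_self]
  have hUX : UX L _ (ball p s) := congr' hUL (uxadd h2 h1)
  -- continuation
  obtain ⟨B, hB⟩ := ext (U0 := ball p s) (U1 := ball p (14 / 5 * s)) (U2 := ball p (10 * s))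
    (U3 := ball p (3 / 2 * s)) (ball_subset_ball (by linarith)) (ball_subset_ball (by linarith))
    (ball_subset_ball (by linarith)) isOpen_ball
    (tcs (r0 := 9 / 10 * s) (R0 := 9 * s) (by linarith) (by linarith) (by linarith) (by linarith)
      (by linarith) (by nlinarith))
    (tcs (r0 := 9 / 10 * s) (R0 := 13 / 5 * s) (by linarith) (by linarith) (by linarith)
      (by linarith) (by linarith) (by nlinarith)) hLb hUX
  obtain ⟨B', hB', hB0⟩ := uxexp uxbd uxmul ℂ L B (ball p (3 / 2 * s)) hB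
  have hsub3 : ball p (5 / 4 * r) ⊆ ball p (3 / 2 * s) := ball_subset_ball (by rw [hs]; linarith)
  have hsub18 : ball p (5 / 4 * r) ⊆ ball p (18 * r) := ball_subset_ball (by linarith)
  have hfin : UX Y B' (ball p (5 / 4 * r)) := by
    refine congr' ?_ (ux_mono hB' hsub3)
    filter_upwards [hY] with N hN z hz
    exact (hL N hN).2.1 z (hsub18 hz)
  refine ⟨B', hfin, ?_, ?_⟩
  · refine uxan Y B' _ isOpen_ball ?_ hfin
    filter_upwards [hY] with N hN
    exact hN.1.mono hsub18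
  · intro z _
    rw [hB0]
    exact Complex.exp_ne_zero _

end Pool.Agent.Y914.CJ
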