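import Pool.Agent.Y472.J.Defs
import Pool.Agent.Y914.CJ.Dbl

/-!
# CEX: continuation of asymptotic expansions on connected open sets (helper914)
-/

set_option autoImplicit false

namespace Pool.Agent.Y914.CJ

open Finset Filter Topology Metric
open Pool.Agent.W719.AX
open Pool.Agent.W711.HT (MW)
open Pool.Agent.Y472 (GXo)

/-- expansions at a point -/
def EP (y : ℕ → ℂ) (a : ℕ → ℂ) : Prop :=
  ∀ K : ℕ, ∃ C : ℝ, ∀ᶠ N : ℕ in atTop,
    ‖y N - ∑ k ∈ range K, a k / (N : ℂ) ^ k‖ ≤ C / (N : ℝ) ^ K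

theorem ep_of_ux {Y : ℕ → ℂ → ℂ} {A : ℕ → ℂ → ℂ} {S : Set ℂ} (h : UX Y A S) {z : ℂ} (hz : z ∈ S) :
    EP (fun N => Y N z) (fun k => A k z) := by
  intro K
  obtain ⟨C, hC⟩ := h K
  exact ⟨C, hC.mono fun N hN => hN z hz⟩

theorem ep_unique {y a b : ℕ → ℂ} (ha : EP y a) (hb : EP y b) : a = b := by
  funext k
  induction k using Nat.strong_induction_on with
  | _ k ih =>
    obtain ⟨C, hC⟩ := ha (k + 1)
    obtain ⟨D, hD⟩ := hb (k + 1)
    have h1 : ∀ᶠ N : ℕ in atTop, ‖a k - b k‖ ≤ (C + D) / N := by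
      filter_upwards [hC, hD, eventually_ge_atTop 1] with N h1 h2 hN
      have hNpos : (0 : ℝ) < N := by exact_mod_cast hN
      have hNc : (N : ℂ) ≠ 0 := by exact_mod_cast hNpos.ne'
      have hs : ∑ j ∈ range k, a j / (N : ℂ) ^ j = ∑ j ∈ range k, b j / (N : ℂ) ^ j :=
        sum_congr rfl fun j hj => by rw [ih j (mem_range.1 hj)]
      have e : a k - b k = (N : ℂ) ^ k * ((y N - ∑ j ∈ range (k + 1), b j / (N : ℂ) ^ j) -
          (y N - ∑ j ∈ range (k + 1), a j / (N : ℂ) ^ j)) := by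
        rw [sum_range_succ, sum_range_succ, hs]
        field_simp
        ring
      rw [e, norm_mul, norm_pow, Complex.norm_natCast]
      calc (N : ℝ) ^ k * ‖(y N - ∑ j ∈ range (k + 1), b j / (N : ℂ) ^ j) -
          (y N - ∑ j ∈ range (k + 1), a j / (N : ℂ) ^ j)‖
          ≤ (N : ℝ) ^ k * (D / (N : ℝ) ^ (k + 1) + C / (N : ℝ) ^ (k + 1)) := by
            apply mul_le_mul_of_nonneg_left _ (by positivity)
            exact (norm_sub_le _ _).trans (add_le_add h2 h1)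
        _ = (C + D) / N := by
            rw [pow_succ]
            field_simp
            ring
    have h2 := ge_of_tendsto (tendsto_const_div_atTop_nhds_zero_nat (C + D)) h1
    exact sub_eq_zero.1 (norm_le_zero_iff.1 h2)

open Classical in
/-- the coefficients of the expansion of a sequence -/
noncomputable def cf (y : ℕ → ℂ) (k : ℕ) : ℂ := if h : ∃ a, EP y a then h.choose k else 0

theorem cf_eq {y a : ℕ → ℂ} (h : EP y a) (k : ℕ) : cf y k = a k := by
  have h' : ∃ a, EP y a := ⟨a, h⟩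
  unfold cf
  rw [dif_pos h']
  exact congrFun (ep_unique h'.choose_spec h) k

theorem gd_cf {Y : ℕ → ℂ → ℂ} {A : ℕ → ℂ → ℂ} {S : Set ℂ} (hA : GD Y A S) :
    GD Y (fun k z => cf (fun N => Y N z) k) S := by
  have he : ∀ x ∈ S, ∀ k, cf (fun N => Y N x) k = A k x := fun x hx k =>
    cf_eq (ep_of_ux hA.ux hx) k
  refine ⟨?_, ?_, ?_⟩
  · intro K
    obtain ⟨C, hC⟩ := hA.ux K
    refine ⟨C, hC.mono fun N hN x hx => ?_⟩
    simp only [he x hx]
    exact hN x hx
  · intro k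
    exact (hA.an k).congr fun x hx => he x hx k
  · intro x hx
    show cf (fun N => Y N x) 0 ≠ 0
    rw [he x hx]
    exact hA.nz x hx

theorem glue {Y : ℕ → ℂ → ℂ} {V : Set ℂ} (hVc : IsCompact (closure V))
    (h : ∀ z ∈ closure V, ∃ r : ℝ, 0 < r ∧ ∃ A, GD Y A (ball z r)) :
    GD Y (fun k z => cf (fun N => Y N z) k) V := by
  choose! r hr A hA using h
  obtain ⟨t, ht, htV⟩ := hVc.elim_nhds_subcover (fun z => ball z (r z))
    (fun z hz => ball_mem_nhds z (hr z hz))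
  have hloc : ∀ z ∈ t, GD Y (fun k z => cf (fun N => Y N z) k) (ball z (r z)) := fun z hz =>
    gd_cf (hA z (ht z hz))
  refine ⟨?_, ?_, ?_⟩
  · intro K
    have h1 : ∀ z ∈ t, ∃ C : ℝ, ∀ᶠ N : ℕ in atTop, ∀ x ∈ ball z (r z),
        ‖Y N x - ∑ k ∈ range K, cf (fun N => Y N x) k / (N : ℂ) ^ k‖ ≤ C / (N : ℝ) ^ K :=
      fun z hz => (hloc z hz).ux K
    choose! C hC using h1
    refine ⟨∑ z ∈ t, |C z|, ?_⟩
    have h2 := (Filter.eventually_all_finset t).2 hC
    filter_upwards [h2] with N hN x hx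
    obtain ⟨z, hz, hxz⟩ := Set.mem_iUnion₂.1 (htV (subset_closure hx))
    refine (hN z hz x hxz).trans ?_
    apply div_le_div_of_nonneg_right _ (by positivity)
    exact (le_abs_self _).trans
      (single_le_sum (f := fun z => |C z|) (fun z _ => abs_nonneg _) hz)
  · intro k x hx
    obtain ⟨z, hz, hxz⟩ := Set.mem_iUnion₂.1 (htV (subset_closure hx))
    exact (((hloc z hz).an k x hxz).differentiableAt
      (isOpen_ball.mem_nhds hxz)).differentiableWithinAt
  · intro x hx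
    obtain ⟨z, hz, hxz⟩ := Set.mem_iUnion₂.1 (htV (subset_closure hx))
    exact (hloc z hz).nz x hxz

/-- the points near which there is an expansion -/
def GS (Y : ℕ → ℂ → ℂ) (U : Set ℂ) : Set ℂ :=
  {z | ∃ r : ℝ, 0 < r ∧ ball z r ⊆ U ∧ ∃ A, GD Y A (ball z r)}

theorem gs_open (Y : ℕ → ℂ → ℂ) (U : Set ℂ) : IsOpen (GS Y U) := by
  rw [Metric.isOpen_iff]
  rintro z ⟨r, hr, hrU, A, hA⟩
  refine ⟨r / 2, by positivity, fun x hx => ?_⟩
  have hsub : ball x (r / 2) ⊆ ball z r := by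
    apply ball_subset_ball'
    rw [mem_ball] at hx
    linarith
  exact ⟨r / 2, by positivity, hsub.trans hrU, A, hA.mono hsub⟩

theorem gs_closed {Y : ℕ → ℂ → ℂ} {U : Set ℂ} (hU : IsOpen U)
    (hY : ∀ᶠ N : ℕ in atTop, DifferentiableOn ℂ (Y N) U ∧
      ∀ z ∈ U, Y N z ≠ 0 ∧ |Real.log ‖Y N z‖| ≤ N) {z₀ : ℂ} (hz : z₀ ∈ closure (GS Y U))
    (hzU : z₀ ∈ U) : z₀ ∈ GS Y U := by
  obtain ⟨ε, hε, hεU⟩ := Metric.isOpen_iff.1 hU z₀ hzU
  obtain ⟨d, hd⟩ : ∃ d, d = ε / 40 := ⟨_, rfl⟩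
  have hd0 : 0 < d := by rw [hd]; positivity
  obtain ⟨z₁, ⟨ρ, hρ, hρU, A, hA⟩, hz1⟩ := Metric.mem_closure_iff.1 hz d hd0
  have key : ∀ m : ℕ, ∃ A', GD Y A' (ball z₁ (min ((5 / 4) ^ m * ρ) (2 * d))) := by
    intro m
    induction m with
    | zero =>
      refine ⟨A, hA.mono (ball_subset_ball ?_)⟩
      rw [pow_zero, one_mul]
      exact min_le_left _ _
    | succ m ih =>
      obtain ⟨A', hA'⟩ := ih
      obtain ⟨s, hs⟩ : ∃ s, s = min ((5 / 4) ^ m * ρ) (2 * d) := ⟨_, rfl⟩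
      rw [← hs] at hA'
      have hs0 : 0 < s := by rw [hs]; exact lt_min (by positivity) (by positivity)
      have hs1 : s ≤ 2 * d := by rw [hs]; exact min_le_right _ _
      have hsub : ball z₁ (18 * s) ⊆ U := by
        refine Set.Subset.trans ?_ hεU
        apply ball_subset_ball'
        rw [dist_comm] at hz1
        linarith
      obtain ⟨A'', hA''⟩ := dbl hs0 (hY.mono fun N hN =>
        ⟨hN.1.mono hsub, fun z hz => hN.2 z (hsub hz)⟩) hA'
      refine ⟨A'', hA''.mono (ball_subset_ball ?_)⟩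
      rcases le_total ((5 / 4) ^ m * ρ) (2 * d) with h | h
      · rw [hs, min_eq_left h]
        refine (min_le_left _ _).trans (le_of_eq ?_)
        ring
      · rw [hs, min_eq_right h]
        refine (min_le_right _ _).trans ?_
        linarith
  obtain ⟨m, hm⟩ := pow_unbounded_of_one_lt (2 * d / ρ) (show (1 : ℝ) < 5 / 4 by norm_num)
  obtain ⟨A', hA'⟩ := key m
  rw [min_eq_right ((div_lt_iff₀ hρ).1 hm).le] at hA'
  refine ⟨d, hd0, ?_, A', hA'.mono ?_⟩
  · exact (ball_subset_ball (by rw [hd]; linarith)).trans hεU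
  · apply ball_subset_ball'
    linarith

/-- CEX -/
theorem cex : Pool.Agent.Y472.S_CEX := by
  intro U W X G A hU hUc hW hWne hWU hX hG hMW hA V hV hVc hVU
  have hY : ∀ᶠ N : ℕ in atTop,
      DifferentiableOn ℂ (fun χ => Complex.exp (-(N * G χ)) * X N χ) U ∧
      ∀ z ∈ U, Complex.exp (-(N * G z)) * X N z ≠ 0 ∧
        |Real.log ‖Complex.exp (-(N * G z)) * X N z‖| ≤ N := by
    filter_upwards [hMW 1 one_pos] with N hN
    refine ⟨DifferentiableOn.mul ?_ (hX N), fun z hz => ?_⟩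
    · exact ((hG.const_mul (N : ℂ)).neg).cexp
    · obtain ⟨h1, h2⟩ := hN z hz
      refine ⟨mul_ne_zero (Complex.exp_ne_zero _) h1, ?_⟩
      rw [norm_mul, Real.log_mul (norm_ne_zero_iff.2 (Complex.exp_ne_zero _))
        (norm_ne_zero_iff.2 h1), Complex.norm_exp, Real.log_exp]
      have h3 : (-((N : ℂ) * G z)).re = -(N * (G z).re) := by simp
      rw [h3, one_mul] at *
      rw [show -((N : ℝ) * (G z).re) + Real.log ‖X N z‖ =
        Real.log ‖X N z‖ - N * (G z).re by ring]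
      exact h2
  have hgd : GD (fun N χ => Complex.exp (-(N * G χ)) * X N χ) A W := ⟨hA.ux, hA.an, hA.nz⟩
  have hsub : U ⊆ GS (fun N χ => Complex.exp (-(N * G χ)) * X N χ) U := by
    apply hUc.isPreconnected.subset_of_closure_inter_subset (gs_open _ _)
    · obtain ⟨w, hw⟩ := hWne
      obtain ⟨ε, hε, hεW⟩ := Metric.isOpen_iff.1 hW w hw
      exact ⟨w, hWU hw, ε, hε, hεW.trans hWU, A, hgd.mono hεW⟩
    · rintro z ⟨h1, h2⟩
      exact gs_closed hU hY h1 h2
  have h := glue (Y := fun N χ => Complex.exp (-(N * G χ)) * X N χ) hVc (fun z hz => by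
    obtain ⟨r, h1, -, h2⟩ := hsub (hVU hz)
    exact ⟨r, h1, h2⟩)
  exact ⟨_, h.ux, h.an, h.nz⟩

end Pool.Agent.Y914.CJ
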