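import Pool.Agent.W414.AX.Ext

/-!
# Continuation of asymptotic expansions of functions of polynomial growth (helper914)

Adaptation of `Pool.Agent.W414.AX.Ext` (helper414) to discs.
-/

set_option autoImplicit false

namespace Pool.Agent.Y914.CJ

open Finset Filter Topology Metric
open Pool.Agent.W719.AX
open Pool.Agent.W414.AX (exists_c lim_lemma)

/-- the two constants property -/
def TCs (U2 U0 U1 : Set ℂ) : Prop :=
  ∀ (h : ℂ → ℂ) (B η : ℝ), 0 < η → η ≤ B → DifferentiableOn ℂ h U2 →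
    (∀ z ∈ U2, ‖h z‖ ≤ B) → (∀ z ∈ U0, ‖h z‖ ≤ η) → ∀ z ∈ U1, ‖h z‖ ≤ Real.sqrt (B * η)

theorem interp {η B t : ℝ} (hη : 0 < η) (hB : η ≤ B) (ht : t ≤ 1 / 2) :
    η ^ (1 - t) * B ^ t ≤ Real.sqrt (B * η) := by
  have hB0 : 0 < B := hη.trans_le hB
  have e1 : η ^ (1 - t) = η ^ (1 / 2 : ℝ) * η ^ (1 / 2 - t) := by
    rw [← Real.rpow_add hη]
    congr 1
    ring
  have e2 : B ^ (1 / 2 : ℝ) = B ^ (1 / 2 - t) * B ^ t := by
    rw [← Real.rpow_add hB0]
    congr 1
    ring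
  have e3 : η ^ (1 / 2 - t) ≤ B ^ (1 / 2 - t) := Real.rpow_le_rpow hη.le hB (by linarith)
  rw [Real.sqrt_eq_rpow, Real.mul_rpow hB0.le hη.le, e1, e2]
  have h1 : 0 ≤ η ^ (1 / 2 : ℝ) := by positivity
  have h2 : 0 ≤ B ^ t := by positivity
  calc η ^ (1 / 2 : ℝ) * η ^ (1 / 2 - t) * B ^ t ≤ η ^ (1 / 2 : ℝ) * B ^ (1 / 2 - t) * B ^ t := by
        gcongr
    _ = _ := by ring

/-- two constants on concentric discs -/
theorem tc {p : ℂ} {r0 R0 : ℝ} (hr : 0 < r0) (hrR : r0 < R0) {D : Set ℂ} (hDo : IsOpen D)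
    (hD : closedBall p R0 ⊆ D) {h : ℂ → ℂ} {B η : ℝ} (hη : 0 < η) (hηB : η ≤ B)
    (hd : DifferentiableOn ℂ h D) (hB : ∀ z ∈ D, ‖h z‖ ≤ B)
    (hs : ∀ z ∈ closedBall p r0, ‖h z‖ ≤ η) {z : ℂ} (hz : ‖z - p‖ ^ 2 ≤ r0 * R0) :
    ‖h z‖ ≤ Real.sqrt (B * η) := by
  have hB0 : 0 < B := hη.trans_le hηB
  have hR : 0 < R0 := hr.trans hrR
  have hge : η ≤ Real.sqrt (B * η) := by
    apply Real.le_sqrt_of_sq_le
    nlinarith
  by_cases hz1 : ‖z - p‖ ≤ r0
  · exact (hs z (by rwa [mem_closedBall, dist_eq_norm])).trans hge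
  push Not at hz1
  have hz0 : 0 < ‖z - p‖ := hr.trans hz1
  have hzp : z - p ≠ 0 := norm_pos_iff.1 hz0
  have hzR : ‖z - p‖ ≤ R0 := by
    have h1 : ‖z - p‖ ^ 2 ≤ R0 ^ 2 := hz.trans (by nlinarith)
    exact le_of_sq_le_sq h1 hR.le
  obtain ⟨w, hw⟩ : ∃ w, w = Complex.log (z - p) := ⟨_, rfl⟩
  have hwe : Complex.exp w = z - p := by rw [hw, Complex.exp_log hzp]
  have hwre : w.re = Real.log ‖z - p‖ := by rw [hw, Complex.log_re]
  obtain ⟨l, hl⟩ : ∃ l, l = Real.log r0 := ⟨_, rfl⟩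
  obtain ⟨u, hu⟩ : ∃ u, u = Real.log R0 := ⟨_, rfl⟩
  have hul : l < u := by rw [hl, hu]; exact Real.log_lt_log hr hrR
  have hel : Real.exp l = r0 := by rw [hl, Real.exp_log hr]
  have heu : Real.exp u = R0 := by rw [hu, Real.exp_log hR]
  have hmem : ∀ w : ℂ, w.re ≤ u → p + Complex.exp w ∈ D := by
    intro w hw
    apply hD
    rw [mem_closedBall, dist_eq_norm, add_sub_cancel_left, Complex.norm_exp, ← heu]
    exact Real.exp_le_exp.2 hw
  have hfd : ∀ w : ℂ, w.re ≤ u → DifferentiableAt ℂ (fun w => h (p + Complex.exp w)) w := by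
    intro w hw
    have h1 : DifferentiableAt ℂ h (p + Complex.exp w) :=
      (hd _ (hmem w hw)).differentiableAt (hDo.mem_nhds (hmem w hw))
    have h2 : DifferentiableAt ℂ (fun w : ℂ => p + Complex.exp w) w := by fun_prop
    exact h1.comp w h2
  have hcl : closure (Complex.HadamardThreeLines.verticalStrip l u) ⊆ {w : ℂ | w.re ≤ u} := by
    apply closure_minimal
    · intro w hw
      exact hw.2.le
    · exact isClosed_le Complex.continuous_re continuous_const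
  have key := Complex.HadamardThreeLines.norm_le_interp_of_mem_verticalClosedStrip'
    (f := fun w => h (p + Complex.exp w)) (z := w) (a := η) (b := B) hul
    (by
      constructor
      · rw [hwre, hl]
        exact Real.log_le_log hr hz1.le
      · rw [hwre, hu]
        exact Real.log_le_log hz0 hzR)
    (by
      apply DifferentiableOn.diffContOnCl
      intro w hw
      exact (hfd w (hcl hw)).differentiableWithinAt)
    (by
      refine ⟨B, ?_⟩
      rintro _ ⟨w, hw, rfl⟩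
      exact hB _ (hmem w hw.2))
    (by
      intro w hw
      apply hs
      have hw' : w.re = l := hw
      rw [mem_closedBall, dist_eq_norm, add_sub_cancel_left, Complex.norm_exp, hw', hel])
    (by
      intro w hw
      have hw' : w.re = u := hw
      exact hB _ (hmem w hw'.le))
  simp only [hwe, add_sub_cancel] at key
  refine key.trans (interp hη hηB ?_)
  have hd : 0 < u - l := by linarith
  rw [div_le_iff₀ hd, hwre]
  have h1 : 2 * Real.log ‖z - p‖ ≤ l + u := by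
    rw [hl, hu, ← Real.log_mul hr.ne' hR.ne']
    have h2 : Real.log (‖z - p‖ ^ 2) ≤ Real.log (r0 * R0) := Real.log_le_log (by positivity) hz
    rw [Real.log_pow] at h2
    push_cast at h2
    exact h2
  linarith

theorem tcs {p : ℂ} {r r0 R0 r1 R : ℝ} (hr : 0 < r0) (hrR : r0 < R0) (h1 : r0 < r) (h2 : R0 < R)
    (h3 : 0 ≤ r1) (h4 : r1 ^ 2 ≤ r0 * R0) : TCs (ball p R) (ball p r) (ball p r1) := by
  intro h B η hη hηB hd hB hs z hz
  refine tc hr hrR isOpen_ball (closedBall_subset_ball h2) hη hηB hd hB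
    (fun z hz => hs z (closedBall_subset_ball h1 hz)) ?_
  rw [mem_ball, dist_eq_norm] at hz
  calc ‖z - p‖ ^ 2 ≤ r1 ^ 2 := pow_le_pow_left₀ (norm_nonneg _) hz.le 2
    _ ≤ _ := h4

theorem coeff {U0 U1 U2 : Set ℂ} (h01 : U0 ⊆ U1) (h12 : U1 ⊆ U2) (hU1 : IsOpen U1)
    (htc : TCs U2 U0 U1) {L : ℕ → ℂ → ℂ} {a : ℕ → ℂ → ℂ} {C₀ : ℝ}
    (hL : ∀ᶠ N : ℕ in atTop, DifferentiableOn ℂ (L N) U2 ∧ ∀ z ∈ U2, ‖L N z‖ ≤ C₀ * N)
    (hU : UX L a U0) (k : ℕ) : ∃ (A : ℂ → ℂ) (M : ℝ), 0 ≤ M ∧ DifferentiableOn ℂ A U1 ∧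
      (∀ z ∈ U1, ‖A z‖ ≤ M) ∧ (∀ z ∈ U0, A z = a k z) := by
  obtain ⟨n, hn⟩ : ∃ n, n = 2 * k + 5 := ⟨_, rfl⟩
  obtain ⟨c, hc⟩ := exists_c n k (by omega)
  obtain ⟨C1, hC1⟩ := hU n
  obtain ⟨N1, hN1⟩ := eventually_atTop.1 hC1
  obtain ⟨N2, hN2⟩ := eventually_atTop.1 hL
  set N0 := max (max N1 N2) 1 with hN0
  have hN01 : 1 ≤ N0 := le_max_right _ _
  have hb : ∀ N, N0 ≤ N → ∀ i : ℕ, N1 ≤ 2 ^ i * N ∧ N2 ≤ 2 ^ i * N ∧ N ≤ 2 ^ i * N := by
    intro N hN i
    have h1 : N ≤ 2 ^ i * N := Nat.le_mul_of_pos_left N (by positivity)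
    have h2 : N1 ≤ N0 := (le_max_left _ _).trans (le_max_left _ _)
    have h3 : N2 ≤ N0 := (le_max_right _ _).trans (le_max_left _ _)
    omega
  set W := ∑ i : Fin n, ‖c i‖ with hW
  set W2 := ∑ i : Fin n, ‖c i‖ * 2 ^ (i : ℕ) with hW2
  have hW0 : 0 ≤ W := sum_nonneg fun _ _ => norm_nonneg _
  have hW20 : 0 ≤ W2 := sum_nonneg fun _ _ => by positivity
  set E : ℕ → ℂ → ℂ := fun N z => (N : ℂ) ^ k * ∑ i : Fin n, c i * L (2 ^ (i : ℕ) * N) z
    with hE
  set B0 := W * |C1| with hB0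
  set B1 := W2 * |C₀| with hB1
  have hB00 : 0 ≤ B0 := by positivity
  have hB10 : 0 ≤ B1 := by positivity
  -- the small estimate
  have hRE : ∀ N, N0 ≤ N → ∀ x ∈ U0, ‖E N x - a k x‖ ≤ B0 / (N : ℝ) ^ (k + 5) := by
    intro N hN x hx
    have hNpos : (0 : ℝ) < N := by
      have : 1 ≤ N := by omega
      exact_mod_cast this
    have hNC : (N : ℂ) ≠ 0 := by
      have : N ≠ 0 := by omega
      exact_mod_cast this
    have herr : ∀ i : Fin n, ‖L (2 ^ (i : ℕ) * N) x -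
        ∑ j ∈ range n, a j x / ((2 ^ (i : ℕ) * N : ℕ) : ℂ) ^ j‖ ≤ |C1| / (N : ℝ) ^ n := by
      intro i
      obtain ⟨h1, -, h3⟩ := hb N hN i
      refine (hN1 _ h1 x hx).trans ?_
      have h4 : (N : ℝ) ≤ ((2 ^ (i : ℕ) * N : ℕ) : ℝ) := by exact_mod_cast h3
      calc C1 / ((2 ^ (i : ℕ) * N : ℕ) : ℝ) ^ n ≤ |C1| / ((2 ^ (i : ℕ) * N : ℕ) : ℝ) ^ n :=
            div_le_div_of_nonneg_right (le_abs_self _) (by positivity)
        _ ≤ |C1| / (N : ℝ) ^ n := div_le_div_of_nonneg_left (abs_nonneg _) (by positivity)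
            (pow_le_pow_left₀ hNpos.le h4 n)
    have hsum : ∑ i : Fin n, c i * ∑ j ∈ range n, a j x /
        ((2 ^ (i : ℕ) * N : ℕ) : ℂ) ^ j = a k x / (N : ℂ) ^ k := by
      have h1 : ∀ i : Fin n, c i * ∑ j ∈ range n, a j x /
          ((2 ^ (i : ℕ) * N : ℕ) : ℂ) ^ j = ∑ j ∈ range n, a j x / (N : ℂ) ^ j *
            (c i * ((1 / 2 : ℂ) ^ (i : ℕ)) ^ j) := by
        intro i
        rw [mul_sum]
        refine sum_congr rfl fun j _ => ?_
        push_cast
        rw [mul_pow, one_div_pow, one_div_pow]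
        field_simp
      rw [sum_congr rfl fun i _ => h1 i, sum_comm]
      have h2 : ∀ j ∈ range n, ∑ i : Fin n, a j x / (N : ℂ) ^ j *
          (c i * ((1 / 2 : ℂ) ^ (i : ℕ)) ^ j) =
          if j = k then a j x / (N : ℂ) ^ j else 0 := by
        intro j hj
        rw [← mul_sum, hc j (mem_range.1 hj)]
        split_ifs <;> simp
      rw [sum_congr rfl h2, sum_ite_eq' (range n) k]
      rw [if_pos (mem_range.2 (by omega))]
    have hid : E N x - a k x = (N : ℂ) ^ k * ∑ i : Fin n, c i *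
        (L (2 ^ (i : ℕ) * N) x -
          ∑ j ∈ range n, a j x / ((2 ^ (i : ℕ) * N : ℕ) : ℂ) ^ j) := by
      simp only [hE, mul_sub, sum_sub_distrib]
      rw [hsum]
      field_simp
    rw [hid, norm_mul, norm_pow, Complex.norm_natCast]
    calc (N : ℝ) ^ k * ‖∑ i : Fin n, c i * (L (2 ^ (i : ℕ) * N) x -
          ∑ j ∈ range n, a j x / ((2 ^ (i : ℕ) * N : ℕ) : ℂ) ^ j)‖
        ≤ (N : ℝ) ^ k * ∑ i : Fin n, ‖c i‖ * (|C1| / (N : ℝ) ^ n) := by
          apply mul_le_mul_of_nonneg_left _ (by positivity)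
          refine (norm_sum_le _ _).trans (sum_le_sum fun i _ => ?_)
          rw [norm_mul]
          exact mul_le_mul_of_nonneg_left (herr i) (norm_nonneg _)
      _ = B0 / (N : ℝ) ^ (k + 5) := by
          have hNn : (N : ℝ) ^ n = (N : ℝ) ^ k * (N : ℝ) ^ (k + 5) := by
            rw [← pow_add]
            congr 1
            omega
          rw [← sum_mul, hNn, hB0, hW]
          field_simp
  -- the large estimate
  have hCE : ∀ N, N0 ≤ N → ∀ z ∈ U2, ‖E N z‖ ≤ B1 * (N : ℝ) ^ (k + 1) := by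
    intro N hN z hz
    simp only [hE]
    rw [norm_mul, norm_pow, Complex.norm_natCast]
    calc (N : ℝ) ^ k * ‖∑ i : Fin n, c i * L (2 ^ (i : ℕ) * N) z‖
        ≤ (N : ℝ) ^ k * ∑ i : Fin n, ‖c i‖ * 2 ^ (i : ℕ) * (|C₀| * N) := by
          apply mul_le_mul_of_nonneg_left _ (by positivity)
          refine (norm_sum_le _ _).trans (sum_le_sum fun i _ => ?_)
          rw [norm_mul, mul_assoc]
          apply mul_le_mul_of_nonneg_left _ (norm_nonneg _)
          obtain ⟨-, h2, -⟩ := hb N hN i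
          refine ((hN2 _ h2).2 z hz).trans ?_
          push_cast
          calc C₀ * (2 ^ (i : ℕ) * (N : ℝ)) ≤ |C₀| * (2 ^ (i : ℕ) * (N : ℝ)) :=
                mul_le_mul_of_nonneg_right (le_abs_self _) (by positivity)
            _ = _ := by ring
      _ = B1 * (N : ℝ) ^ (k + 1) := by
          rw [← sum_mul, hB1, pow_succ]
          ring
  have hED : ∀ N, N0 ≤ N → DifferentiableOn ℂ (E N) U2 := by
    intro N hN
    simp only [hE]
    refine DifferentiableOn.const_mul ?_ _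
    refine DifferentiableOn.fun_sum fun i _ => ?_
    exact ((hN2 _ (hb N hN i).2.1).1).const_mul _
  -- the differences
  set CC := B1 * (1 + 2 ^ (k + 1)) + 2 * B0 + 1 with hCC
  have hCC1 : 1 ≤ CC := by
    have : 0 ≤ B1 * (1 + 2 ^ (k + 1)) := by positivity
    linarith
  have hdif : ∀ N, N0 ≤ N → ∀ z ∈ U1, ‖E N z - E (N + 1) z‖ ≤ CC / (N : ℝ) ^ 2 := by
    intro N hN z hz
    have hN1' : (1 : ℝ) ≤ N := by
      have : 1 ≤ N := by omega
      exact_mod_cast this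
    have hNpos : (0 : ℝ) < N := by linarith
    have hpw : (1 : ℝ) ≤ (N : ℝ) ^ (k + 1) := one_le_pow₀ hN1'
    have hpw5 : (1 : ℝ) ≤ (N : ℝ) ^ (k + 5) := one_le_pow₀ hN1'
    have := htc (fun z => E N z - E (N + 1) z) (CC * (N : ℝ) ^ (k + 1))
      (CC / (N : ℝ) ^ (k + 5)) (by positivity) ?_ ((hED N hN).sub (hED (N + 1) (by omega)))
      ?_ ?_ z hz
    · have h1 : CC * (N : ℝ) ^ (k + 1) * (CC / (N : ℝ) ^ (k + 5)) = (CC / (N : ℝ) ^ 2) ^ 2 := by
        rw [show k + 5 = (k + 1) + 4 by ring, pow_add (N : ℝ) (k + 1) 4]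
        field_simp
      rw [h1, Real.sqrt_sq (by positivity)] at this
      exact this
    · calc CC / (N : ℝ) ^ (k + 5) ≤ CC := div_le_self (by linarith) hpw5
        _ ≤ CC * (N : ℝ) ^ (k + 1) := le_mul_of_one_le_right (by linarith) hpw
    · intro z hz
      have h1 := hCE N hN z hz
      have h2 := hCE (N + 1) (by omega) z hz
      have h3 : (((N + 1 : ℕ)) : ℝ) ^ (k + 1) ≤ 2 ^ (k + 1) * (N : ℝ) ^ (k + 1) := by
        rw [← mul_pow]
        apply pow_le_pow_left₀ (by positivity)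
        push_cast
        linarith
      calc ‖E N z - E (N + 1) z‖ ≤ ‖E N z‖ + ‖E (N + 1) z‖ := norm_sub_le _ _
        _ ≤ B1 * (N : ℝ) ^ (k + 1) + B1 * (2 ^ (k + 1) * (N : ℝ) ^ (k + 1)) :=
            add_le_add h1 (h2.trans (mul_le_mul_of_nonneg_left h3 hB10))
        _ = B1 * (1 + 2 ^ (k + 1)) * (N : ℝ) ^ (k + 1) := by ring
        _ ≤ CC * (N : ℝ) ^ (k + 1) := by
            apply mul_le_mul_of_nonneg_right _ (by positivity)
            linarith
    · intro x hx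
      have h1 := hRE N hN x hx
      have h2 := hRE (N + 1) (by omega) x hx
      have h3 : B0 / (((N + 1 : ℕ)) : ℝ) ^ (k + 5) ≤ B0 / (N : ℝ) ^ (k + 5) := by
        apply div_le_div_of_nonneg_left hB00 (by positivity)
        apply pow_le_pow_left₀ hNpos.le
        push_cast
        linarith
      calc ‖E N x - E (N + 1) x‖ = ‖(E N x - a k x) - (E (N + 1) x - a k x)‖ := by
            congr 1; ring
        _ ≤ ‖E N x - a k x‖ + ‖E (N + 1) x - a k x‖ := norm_sub_le _ _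
        _ ≤ B0 / (N : ℝ) ^ (k + 5) + B0 / (N : ℝ) ^ (k + 5) := add_le_add h1 (h2.trans h3)
        _ = (2 * B0) / (N : ℝ) ^ (k + 5) := by ring
        _ ≤ CC / (N : ℝ) ^ (k + 5) := by
            apply div_le_div_of_nonneg_right _ (by positivity)
            have : 0 ≤ B1 * (1 + 2 ^ (k + 1)) := by positivity
            linarith
  obtain ⟨F, hF⟩ := lim_lemma U1 E CC (by linarith) N0 hN01 hdif
  refine ⟨F, B1 * (N0 : ℝ) ^ (k + 1) + 2 * CC / N0, by positivity, ?_, ?_, ?_⟩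
  · have hunif : TendstoUniformlyOn E F atTop U1 := by
      rw [Metric.tendstoUniformlyOn_iff]
      intro ε hε
      have h1 := tendsto_const_div_atTop_nhds_zero_nat (2 * CC)
      filter_upwards [h1.eventually (gt_mem_nhds hε), eventually_ge_atTop N0] with N hN hN' z hz
      rw [dist_comm, dist_eq_norm]
      exact (hF N hN' z hz).trans_lt hN
    refine hunif.tendstoLocallyUniformlyOn.differentiableOn ?_ hU1
    filter_upwards [eventually_ge_atTop N0] with N hN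
    exact (hED N hN).mono h12
  · intro z hz
    have h1 := hF N0 le_rfl z hz
    have h2 := hCE N0 le_rfl z (h12 hz)
    calc ‖F z‖ = ‖E N0 z - (E N0 z - F z)‖ := by congr 1; ring
      _ ≤ ‖E N0 z‖ + ‖E N0 z - F z‖ := norm_sub_le _ _
      _ ≤ _ := add_le_add h2 h1
  · intro x hx
    have h1 : ∀ᶠ N : ℕ in atTop, ‖F x - a k x‖ ≤ (2 * CC + B0) / N := by
      filter_upwards [eventually_ge_atTop N0] with N hN
      have hN1' : (1 : ℝ) ≤ N := by
        have : 1 ≤ N := by omega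
        exact_mod_cast this
      have h2 := hF N hN x (h01 hx)
      have h3 := hRE N hN x hx
      have h4 : B0 / (N : ℝ) ^ (k + 5) ≤ B0 / N := by
        apply div_le_div_of_nonneg_left hB00 (by linarith)
        exact le_self_pow₀ hN1' (by omega)
      calc ‖F x - a k x‖ = ‖(E N x - a k x) - (E N x - F x)‖ := by congr 1; ring
        _ ≤ ‖E N x - a k x‖ + ‖E N x - F x‖ := norm_sub_le _ _
        _ ≤ B0 / N + 2 * CC / N := add_le_add (h3.trans h4) h2
        _ = _ := by ring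
    have h5 := ge_of_tendsto (tendsto_const_div_atTop_nhds_zero_nat (2 * CC + B0)) h1
    exact sub_eq_zero.1 (norm_le_zero_iff.1 h5)

/-- an expansion on `U0` of functions which are `O(N)` on `U2` is valid on `U3` -/
theorem ext {U0 U1 U2 U3 : Set ℂ} (h01 : U0 ⊆ U1) (h12 : U1 ⊆ U2) (h31 : U3 ⊆ U1)
    (hU1 : IsOpen U1) (htc1 : TCs U2 U0 U1) (htc2 : TCs U1 U0 U3)
    {L : ℕ → ℂ → ℂ} {a : ℕ → ℂ → ℂ} {C₀ : ℝ}
    (hL : ∀ᶠ N : ℕ in atTop, DifferentiableOn ℂ (L N) U2 ∧ ∀ z ∈ U2, ‖L N z‖ ≤ C₀ * N)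
    (hU : UX L a U0) : ∃ A : ℕ → ℂ → ℂ, UX L A U3 := by
  have hco := coeff h01 h12 hU1 htc1 hL hU
  choose A M hM hA1 hA2 hA3 using hco
  refine ⟨A, fun K => ?_⟩
  obtain ⟨C1, hC1⟩ := hU (2 * K + 1)
  set CC := |C₀| + ∑ k ∈ range (2 * K + 1), M k + |C1| + 1 with hCC
  have hMs : 0 ≤ ∑ k ∈ range (2 * K + 1), M k := sum_nonneg fun k _ => hM k
  have hCC1 : 1 ≤ CC := by
    have := abs_nonneg C₀
    have := abs_nonneg C1
    linarith
  refine ⟨CC + ∑ k ∈ range (2 * K + 1), M k, ?_⟩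
  filter_upwards [hC1, hL, eventually_ge_atTop 1] with N hN1 hN2 hN3 z hz
  have hN1' : (1 : ℝ) ≤ N := by exact_mod_cast hN3
  have hNpos : (0 : ℝ) < N := by linarith
  have hAN : ∀ z ∈ U1, ∀ k, ‖A k z / (N : ℂ) ^ k‖ ≤ M k / (N : ℝ) ^ k := by
    intro z hz k
    rw [norm_div, norm_pow, Complex.norm_natCast]
    exact div_le_div_of_nonneg_right (hA2 k z hz) (by positivity)
  have hD := htc2 (fun z => L N z - ∑ k ∈ range (2 * K + 1), A k z / (N : ℂ) ^ k)
    (CC * N) (CC / (N : ℝ) ^ (2 * K + 1)) (by positivity) ?_ ?_ ?_ ?_ z hz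
  · have e1 : CC * (N : ℝ) * (CC / (N : ℝ) ^ (2 * K + 1)) = (CC / (N : ℝ) ^ K) ^ 2 := by
      rw [pow_succ, pow_mul']
      field_simp
    rw [e1, Real.sqrt_sq (by positivity)] at hD
    have e2 : L N z - ∑ k ∈ range K, A k z / (N : ℂ) ^ k =
        (L N z - ∑ k ∈ range (2 * K + 1), A k z / (N : ℂ) ^ k) +
          ∑ k ∈ Ico K (2 * K + 1), A k z / (N : ℂ) ^ k := by
      rw [← sum_range_add_sum_Ico _ (by omega : K ≤ 2 * K + 1)]
      ring
    rw [e2, add_div]
    refine (norm_add_le _ _).trans (add_le_add hD ?_)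
    calc ‖∑ k ∈ Ico K (2 * K + 1), A k z / (N : ℂ) ^ k‖
        ≤ ∑ k ∈ Ico K (2 * K + 1), M k / (N : ℝ) ^ K := by
          refine (norm_sum_le _ _).trans (sum_le_sum fun k hk => ?_)
          refine (hAN z (h31 hz) k).trans ?_
          apply div_le_div_of_nonneg_left (hM k) (by positivity)
          exact pow_le_pow_right₀ hN1' (mem_Ico.1 hk).1
      _ ≤ ∑ k ∈ range (2 * K + 1), M k / (N : ℝ) ^ K := by
          apply sum_le_sum_of_subset_of_nonneg
          · intro k hk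
            exact mem_range.2 (mem_Ico.1 hk).2
          · intro k _ _
            exact div_nonneg (hM k) (by positivity)
      _ = _ := by rw [sum_div]
  · calc CC / (N : ℝ) ^ (2 * K + 1) ≤ CC := div_le_self (by linarith) (one_le_pow₀ hN1')
      _ ≤ CC * N := le_mul_of_one_le_right (by linarith) hN1'
  · refine ((hN2.1).mono h12).sub ?_
    refine DifferentiableOn.fun_sum fun k _ => ?_
    exact (hA1 k).div_const _
  · intro z hz
    have h1 := hN2.2 z (h12 hz)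
    calc ‖L N z - ∑ k ∈ range (2 * K + 1), A k z / (N : ℂ) ^ k‖
        ≤ ‖L N z‖ + ‖∑ k ∈ range (2 * K + 1), A k z / (N : ℂ) ^ k‖ := norm_sub_le _ _
      _ ≤ |C₀| * N + ∑ k ∈ range (2 * K + 1), M k := by
          apply add_le_add
          · exact h1.trans (mul_le_mul_of_nonneg_right (le_abs_self _) hNpos.le)
          · refine (norm_sum_le _ _).trans (sum_le_sum fun k _ => ?_)
            exact (hAN z hz k).trans (div_le_self (hM k) (one_le_pow₀ hN1'))
      _ ≤ |C₀| * N + (∑ k ∈ range (2 * K + 1), M k) * N := by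
          have := le_mul_of_one_le_right hMs hN1'
          linarith
      _ ≤ CC * N := by
          have h2 : 0 ≤ |C1| * N := by positivity
          have e : CC * N = |C₀| * N + (∑ k ∈ range (2 * K + 1), M k) * N + |C1| * N + N := by
            rw [hCC]; ring
          rw [e]
          linarith
  · intro x hx
    have h1 : ∀ k, A k x = a k x := fun k => hA3 k x hx
    simp only [h1]
    refine (hN1 x hx).trans ?_
    apply div_le_div_of_nonneg_right _ (by positivity)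
    have := le_abs_self C1
    have := abs_nonneg C₀
    linarith

end Pool.Agent.Y914.CJ
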